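import Pool.Agent.P.MP_f07b17_co.Lower

namespace Pool.Agent.Results.MP_f07b17_co.LowerBound

open Pool.Agent.P.MP_f07b17_co Finset

theorem bound (s p : ℝ) (hs : s ^ 2 = 2) (hs1 : 1.414 < s) (hs2 : s < 1.415) (hp1 : 0.4 < p)
    (hp2 : p < 0.401)
    (hp : p ^ 4 - 4 * s * p ^ 3 + (18 - 8 * s) * p ^ 2 + 4 * s * p - 3 = 0) :
    1 - ((1 + p ^ 2) / 2) ^ 2 ≤ cStar := by
  refine le_csInf ⟨1, ⟨by norm_num, le_rfl⟩, propP_one⟩ ?_
  rintro c ⟨⟨hc0, hc1⟩, hc⟩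
  by_contra hlt
  have hr : 0 ≤ (1 + p ^ 2) / 2 - s * p := by nlinarith
  have ha : 0 ≤ (1 - p ^ 2) / 2 := by nlinarith
  have hq : 0 ≤ (s - 1) * p := by nlinarith
  refine not_propP ![(1 - p ^ 2) / 2, p, (s - 1) * p, (1 + p ^ 2) / 2 - s * p, 0, 0, 0] ?_ ?_
    (1 - ((1 + p ^ 2) / 2) ^ 2) ?_ c hc0 hc1 (not_le.1 hlt) hc
  · intro i
    fin_cases i <;> simp <;> linarith
  · simp [Fin.sum_univ_succ]
    ring
  · intro k
    fin_cases k <;> simp +decide [Fin.sum_univ_succ]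
    · nlinarith [sq_nonneg p]
    · apply le_of_eq; ring
    · apply le_of_eq; ring
    · apply le_of_eq; ring
    · apply le_of_eq; ring
    · apply le_of_eq; linear_combination (p ^ 2) * hs
    · apply le_of_eq; linear_combination (-1 / 4 : ℝ) * hp - (p ^ 2) * hs

theorem result :
    ∃ p : ℝ, 0.4 < p ∧ p < 0.401 ∧
      p ^ 4 - 4 * √2 * p ^ 3 + (18 - 8 * √2) * p ^ 2 + 4 * √2 * p - 3 = 0 ∧
      0.66338 < 1 - ((1 + p ^ 2) / 2) ^ 2 ∧ 1 - ((1 + p ^ 2) / 2) ^ 2 ≤ cStar := by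
  have hs : √2 ^ 2 = 2 := Real.sq_sqrt (by norm_num)
  have hs1 : 1.41421356 < √2 := Real.lt_sqrt_of_sq_lt (by norm_num)
  have hs2 : √2 < 1.41421357 := (Real.sqrt_lt' (by norm_num)).2 (by norm_num)
  generalize √2 = s at *
  let f : ℝ → ℝ := fun p => p ^ 4 - 4 * s * p ^ 3 + (18 - 8 * s) * p ^ 2 + 4 * s * p - 3
  have hf : Continuous f := by fun_prop
  have h1 : f 0.4004 < 0 := by simp only [f]; nlinarith
  have h2 : 0 < f 0.40046 := by simp only [f]; nlinarith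
  obtain ⟨p, ⟨hp1, hp2⟩, hp⟩ := intermediate_value_Ioo (show (0.4004 : ℝ) ≤ 0.40046 by norm_num)
    hf.continuousOn ⟨h1, h2⟩
  refine ⟨p, by linarith, by linarith, hp, ?_, bound s p hs (by linarith) (by linarith)
    (by linarith) (by linarith) hp⟩
  have : p ^ 2 < 0.40046 ^ 2 := by nlinarith
  have h3 : 0 ≤ p ^ 2 := by positivity
  nlinarith

end Pool.Agent.Results.MP_f07b17_co.LowerBound
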